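import Pool.Agent.Helper74.NW.LZ

/-!
# KZ2, part L3: a line which is disjoint from its image does not separate
-/

set_option autoImplicit false

namespace Pool.Agent.Helper52.KZ

open Pool.Agent.Helper74.NW

universe u

variable {V : Type u} {G : SimpleGraph V}

/-- The vertices which can be reached from `H` outside `X`. -/
def Ur (G : SimpleGraph V) (H X : Set V) : Set V :=
  {y | ∃ h ∈ H, Relation.ReflTransGen (Rel G Xᶜ) h y}

theorem Ur.not_mem {H X : Set V} (hHX : ∀ x ∈ H, x ∉ X) {y : V} (hy : y ∈ Ur G H X) : y ∉ X := by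
  obtain ⟨h, hh, hr⟩ := hy
  rcases Relation.ReflTransGen.cases_tail hr with h1 | ⟨c, -, h2⟩
  · rw [h1]; exact hHX h hh
  · exact h2.2.2

theorem Ur.sub {H X X' : Set V} (hd : ∀ x ∈ X', x ∉ Ur G H X) : Ur G H X ⊆ Ur G H X' := by
  rintro y ⟨h, hh, hr⟩
  refine ⟨h, hh, ?_⟩
  induction hr with
  | refl => exact Relation.ReflTransGen.refl
  | @tail b c hb hbc ih =>
    refine ih.tail ⟨hbc.1, ?_, ?_⟩
    · intro h'
      exact hd b h' ⟨h, hh, hb⟩
    · intro h'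
      exact hd c h' ⟨h, hh, hb.tail hbc⟩

theorem Ur.step {H X : Set V} (hHX : ∀ x ∈ H, x ∉ X) {y z : V} (hy : y ∈ Ur G H X)
    (hyz : G.Adj y z) (hz : z ∉ X) : z ∈ Ur G H X := by
  have h1 := Ur.not_mem hHX hy
  obtain ⟨h, hh, hr⟩ := hy
  exact ⟨h, hh, hr.tail ⟨hyz, h1, hz⟩⟩

theorem Ur.map (φ : G ≃g G) {H X X' : Set V} (hH : ∀ x ∈ H, φ x ∈ H)
    (hX : ∀ x, x ∉ X → φ x ∉ X') {y : V} (hy : y ∈ Ur G H X) : φ y ∈ Ur G H X' := by
  obtain ⟨h, hh, hr⟩ := hy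
  refine ⟨φ h, hH h hh, ?_⟩
  refine Relation.ReflTransGen.lift (fun x => φ x) ?_ _ _ hr
  intro a b hab
  exact ⟨φ.map_rel_iff.2 hab.1, hX a hab.2.1, hX b hab.2.2⟩

theorem no_sub (hG : ∀ x y, Relation.ReflTransGen G.Adj x y) (φ : G ≃g G) (r : ℕ) (hr : 0 < r)
    (hφ : ∀ x, φ^[r] x = x) {l : Set V} (hne : l.Nonempty) (hd : ∀ x ∈ l, φ x ∉ l) {H : Set V}
    (hH : ∀ x, φ x ∈ H ↔ x ∈ H) (hHne : H.Nonempty) (hHl : ∀ x ∈ H, x ∉ l) :
    ∃ x ∈ l, φ x ∈ Ur G H l := by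
  by_contra hcon
  push Not at hcon
  -- `Ur l ⊆ Ur (φ l)`
  have hsub : Ur G H l ⊆ Ur G H (φ '' l) := by
    refine Ur.sub ?_
    rintro _ ⟨x, hx, rfl⟩
    exact hcon x hx
  have hsymm : ∀ y ∈ Ur G H l, φ.symm y ∈ Ur G H l := by
    intro y hy
    refine Ur.map φ.symm ?_ ?_ (hsub hy)
    · intro x hx
      rw [← hH]
      rwa [RelIso.apply_symm_apply]
    · intro x hx hx'
      exact hx ⟨_, hx', RelIso.apply_symm_apply φ x⟩
  have hiter : ∀ n : ℕ, ∀ y ∈ Ur G H l, φ.symm^[n] y ∈ Ur G H l := by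
    intro n
    induction n with
    | zero => intro y hy; exact hy
    | succ n ih =>
      intro y hy
      rw [Function.iterate_succ_apply]
      exact ih _ (hsymm y hy)
  have hfwd : ∀ y ∈ Ur G H l, φ y ∈ Ur G H l := by
    intro y hy
    have h1 := hiter (r - 1) y hy
    have h2 : φ.symm^[r - 1] y = φ y := by
      have hli : Function.LeftInverse (φ.symm : V → V) (φ : V → V) :=
        fun x => RelIso.symm_apply_apply φ x
      have h3 := (hli.iterate (r - 1)) (φ y)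
      have h4 : φ^[r - 1] (φ y) = y := by
        rw [← Function.iterate_succ_apply, Nat.succ_eq_add_one, Nat.sub_add_cancel hr, hφ]
      rw [h4] at h3
      exact h3
    rwa [h2] at h1
  -- `Ur l` is closed under neighbours
  have hcl : ∀ y ∈ Ur G H l, ∀ z, G.Adj y z → z ∈ Ur G H l := by
    intro y hy z hyz
    by_cases hz : z ∈ l
    · -- `φ⁻¹ y ∈ Ur l`, so its neighbour `φ⁻¹ z ∉ l` is in `Ur l`, so `z ∈ Ur l`
      have h1 : φ.symm z ∉ l := by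
        intro h1
        have := hd _ h1
        rw [RelIso.apply_symm_apply] at this
        exact this hz
      have h2 : G.Adj (φ.symm y) (φ.symm z) := φ.symm.map_rel_iff.2 hyz
      have h3 := Ur.step hHl (hsymm y hy) h2 h1
      have h4 := hfwd _ h3
      rwa [RelIso.apply_symm_apply] at h4
    · exact Ur.step hHl hy hyz hz
  obtain ⟨h₀, hh₀⟩ := hHne
  obtain ⟨x₀, hx₀⟩ := hne
  have h0 : h₀ ∈ Ur G H l := ⟨h₀, hh₀, Relation.ReflTransGen.refl⟩
  have hall : ∀ z, Relation.ReflTransGen G.Adj h₀ z → z ∈ Ur G H l := by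
    intro z hz
    induction hz with
    | refl => exact h0
    | @tail b c _ hbc ih => exact hcl b ih c hbc
  exact Ur.not_mem hHl (hall x₀ (hG h₀ x₀)) hx₀

/-- **L3.** -/
theorem notsep (hG : ∀ x y, Relation.ReflTransGen G.Adj x y) (φ : G ≃g G) (r : ℕ) (hr : 0 < r)
    (hφ : ∀ x, φ^[r] x = x) {l : Set V} (hne : l.Nonempty)
    (hl : ∀ x ∈ l, ∀ y ∈ l, Relation.ReflTransGen (Rel G l) x y) (hd : ∀ x ∈ l, φ x ∉ l)
    {HL HR : Set V} (hHL : ∀ x, φ x ∈ HL ↔ x ∈ HL) (hHR : ∀ x, φ x ∈ HR ↔ x ∈ HR)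
    (hLne : HL.Nonempty) (hRne : HR.Nonempty) (hL : ∀ x ∈ HL, x ∉ l) (hR : ∀ x ∈ HR, x ∉ l) :
    ∃ eL ∈ HL, ∃ eR ∈ HR, Relation.ReflTransGen (Rel G lᶜ) eL eR := by
  obtain ⟨x, hx, hxU⟩ := no_sub hG φ r hr hφ hne hd hHL hLne hL
  obtain ⟨y, hy, hyU⟩ := no_sub hG φ r hr hφ hne hd hHR hRne hR
  obtain ⟨eL, heL, h1⟩ := hxU
  obtain ⟨eR, heR, h2⟩ := hyU
  refine ⟨eL, heL, eR, heR, ?_⟩
  -- `φ x` and `φ y` are joined inside `φ l`
  have h3 : Relation.ReflTransGen (Rel G lᶜ) (φ x) (φ y) := by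
    refine Relation.ReflTransGen.lift (fun x => φ x) ?_ _ _ (hl x hx y hy)
    intro a b hab
    exact ⟨φ.map_rel_iff.2 hab.1, hd a hab.2.1, hd b hab.2.2⟩
  have hsym : ∀ a b, Relation.ReflTransGen (Rel G lᶜ) a b →
      Relation.ReflTransGen (Rel G lᶜ) b a := by
    intro a b hab
    induction hab with
    | refl => exact Relation.ReflTransGen.refl
    | @tail b c _ hbc ih => exact Relation.ReflTransGen.head ⟨hbc.1.symm, hbc.2.2, hbc.2.1⟩ ih
  exact (h1.trans h3).trans (hsym _ _ h2)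

end Pool.Agent.Helper52.KZ
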