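import Pool.Agent.Helper95.KZ.Goals
import Pool.Agent.Helper52.KZ.L3

/-!
# KZ2, packet JMP
-/

set_option autoImplicit false

namespace Pool.Agent.Helper52.KZ

open Pool.Agent.Helper52.Wq2 Pool.Agent.Helper95.KZ Pool.Agent.Helper74.NW

universe u

theorem adj_mul {Γ : Type u} [Group Γ] {S : Set Γ} (k a b : Γ) :
    (cay S).Adj (k * a) (k * b) ↔ (cay S).Adj a b := by
  unfold cay
  rw [SimpleGraph.fromRel_adj, SimpleGraph.fromRel_adj]
  have h1 : (k * a)⁻¹ * (k * b) = a⁻¹ * b := by group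
  have h2 : (k * b)⁻¹ * (k * a) = b⁻¹ * a := by group
  rw [h1, h2, Ne, Ne, mul_right_inj]

/-- Left multiplication. -/
def lm {Γ : Type u} [Group Γ] (S : Set Γ) (k : Γ) : cay S ≃g cay S where
  toEquiv := Equiv.mulLeft k
  map_rel_iff' := by
    intro a b
    exact adj_mul k a b

theorem lm_apply {Γ : Type u} [Group Γ] (S : Set Γ) (k x : Γ) : lm S k x = k * x := rfl

theorem all_conn {Γ : Type u} [Group Γ] {S : Set Γ} (hS : IsGen S) (x y : Γ) :
    Relation.ReflTransGen (cay S).Adj x y := by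
  have hsym : ∀ a b : Γ, Relation.ReflTransGen (cay S).Adj a b →
      Relation.ReflTransGen (cay S).Adj b a := by
    intro a b hab
    induction hab with
    | refl => exact Relation.ReflTransGen.refl
    | @tail b c _ hbc ih => exact Relation.ReflTransGen.head hbc.symm ih
  have key : ∀ g ∈ Subgroup.closure S, ∀ x : Γ, Relation.ReflTransGen (cay S).Adj x (x * g) := by
    intro g hg
    induction hg using Subgroup.closure_induction with
    | mem s hs =>
      intro x
      refine Relation.ReflTransGen.single ((cay_adj hS _ _).2 ?_)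
      rwa [inv_mul_cancel_left]
    | one => intro x; rw [mul_one]
    | mul a b _ _ ha hb =>
      intro x
      rw [← mul_assoc]
      exact (ha x).trans (hb (x * a))
    | inv a _ ha =>
      intro x
      have := ha (x * a⁻¹)
      rw [inv_mul_cancel_right] at this
      exact hsym _ _ this
  have h := key (x⁻¹ * y) (by rw [hS.1]; exact Subgroup.mem_top _) x
  rwa [mul_inv_cancel_left] at h

theorem rel_of_conn {V : Type*} {G : SimpleGraph V} {l : Set V} (hl : Conn G l) :
    ∀ x ∈ l, ∀ y ∈ l, Relation.ReflTransGen (Rel G l) x y := by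
  intro x hx y hy
  have h := hl.2 {y | y ∈ l ∧ Relation.ReflTransGen (Rel G l) x y} (fun z hz => hz.1)
    ⟨x, hx, Relation.ReflTransGen.refl⟩ (by
      rintro a ⟨ha, hr⟩ b hb hab
      exact ⟨hb, hr.tail ⟨hab, ha, hb⟩⟩)
  exact (h hy).2

/-- **JMP.** -/
theorem jmp : JmpStmt.{u} := by
  intro Γ _ S a b k B hP o ho hko l hl hkl L hL hh c
  have hkx : ∀ (P : ℤ → Prop) (x : Γ), x ∈ Sl a b B P → k * x ∈ Sl a b B P := by
    rintro P x ⟨i, j, hj, y, hy, rfl⟩
    refine ⟨i, j, hj, k * y, hP.kB y hy, ?_⟩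
    have h1 : Commute k (a ^ i * b ^ j) :=
      (Commute.zpow_right (show Commute k a from hP.ak.symm) i).mul_right
        (Commute.zpow_right (show Commute k b from hP.bk.symm) j)
    rw [← mul_assoc k, h1.eq, mul_assoc]
  have hkn : ∀ (P : ℤ → Prop) (n : ℕ) (x : Γ), x ∈ Sl a b B P → k ^ n * x ∈ Sl a b B P := by
    intro P n
    induction n with
    | zero => intro x hx; simpa using hx
    | succ n ih =>
      intro x hx
      rw [pow_succ, mul_assoc]
      exact ih _ (hkx P x hx)
  have hiff : ∀ (P : ℤ → Prop) (x : Γ), lm S k x ∈ Sl a b B P ↔ x ∈ Sl a b B P := by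
    intro P x
    rw [lm_apply]
    refine ⟨fun h => ?_, hkx P x⟩
    have h1 := hkn P (o - 1) _ h
    rwa [← mul_assoc, ← pow_succ, Nat.sub_add_cancel ho, hko, one_mul] at h1
  have hord : ∀ x, (lm S k)^[o] x = x := by
    have h1 : ∀ n : ℕ, ∀ x, (lm S k)^[n] x = k ^ n * x := by
      intro n
      induction n with
      | zero => intro x; simp
      | succ n ih =>
        intro x
        rw [Function.iterate_succ_apply, ih, lm_apply, pow_succ, mul_assoc]
    intro x
    rw [h1, hko, one_mul]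
  obtain ⟨C, hC1, hC2⟩ : ∃ C : ℤ, c ≤ C ∧ L < C := ⟨max c (L + 1), le_max_left _ _,
    lt_of_lt_of_le (by omega) (le_max_right _ _)⟩
  obtain ⟨eL, heL, eR, heR, hr⟩ := notsep (G := cay S) (all_conn hP.gen) (lm S k) o ho hord hl.1
    (rel_of_conn hl) (fun x hx => hkl x hx)
    (HL := Sl a b B (fun j => j ≤ -C)) (HR := Sl a b B (fun j => C ≤ j))
    (hiff _) (hiff _)
    ⟨a ^ (0 : ℤ) * b ^ (-C) * 1, 0, -C, le_refl _, 1, hP.one, rfl⟩
    ⟨a ^ (0 : ℤ) * b ^ C * 1, 0, C, le_refl _, 1, hP.one, rfl⟩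
    (by
      rintro _ ⟨i, j, hj, x, hx, rfl⟩ hmem
      have h1 := hh i j x hx hmem
      have h2 := (abs_le.1 h1).1
      omega)
    (by
      rintro _ ⟨i, j, hj, x, hx, rfl⟩ hmem
      have h1 := hh i j x hx hmem
      have h2 := (abs_le.1 h1).2
      omega)
  have heLl : eL ∉ l := by
    obtain ⟨i, j, hj, x, hx, rfl⟩ := heL
    intro hmem
    have h1 := hh i j x hx hmem
    have h2 := (abs_le.1 h1).1
    omega
  obtain ⟨E, hE1, hE2, hE3, hE4⟩ := Rel.finite hr (show eL ∈ lᶜ from heLl)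
  let W : Set Γ := {y | Relation.ReflTransGen (Rel (cay S) E) eL y}
  have hWE : W ⊆ insert eL E := by
    intro y hy
    rcases Relation.ReflTransGen.cases_tail hy with h1 | ⟨d, -, h2⟩
    · exact Or.inl h1
    · exact Or.inr h2.2.2
  refine ⟨W, (hE1.insert eL).subset hWE, ?_, ?_, ⟨eR, hE4, ?_⟩,
    ⟨eL, Relation.ReflTransGen.refl, ?_⟩⟩
  · refine conn_of_root (r := eL) Relation.ReflTransGen.refl ?_
    intro y hy
    have : ∀ y, Relation.ReflTransGen (Rel (cay S) E) eL y →
        Relation.ReflTransGen (fun a b => (cay S).Adj a b ∧ b ∈ W) eL y := by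
      intro y hy
      induction hy with
      | refl => exact Relation.ReflTransGen.refl
      | @tail b c hb hbc ih => exact ih.tail ⟨hbc.1, hb.tail hbc⟩
    exact this y hy
  · rw [Set.disjoint_left]
    intro y hy hyl
    rcases hWE hy with h1 | h1
    · rw [h1] at hyl
      exact heLl hyl
    · exact hE2 h1 hyl
  · obtain ⟨i, j, hj, x, hx, rfl⟩ := heR
    exact ⟨i, j, hC1.trans hj, x, hx, rfl⟩
  · obtain ⟨i, j, hj, x, hx, rfl⟩ := heL
    exact ⟨i, j, le_trans hj (by omega), x, hx, rfl⟩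

end Pool.Agent.Helper52.KZ
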